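import Mathlib

set_option autoImplicit false

/-!
# Supersaturation for blow-ups, dense version (Erdős)
-/

namespace Pool.Agent.Helper311.Blow

open Finset Classical

/-- power mean inequality with an upper bound for the number of terms -/
theorem jensen {α : Type} (s : Finset α) (g : α → ℝ) (hg : ∀ i ∈ s, 0 ≤ g i) (n : ℕ) (M : ℝ)
    (hM : (s.card : ℝ) ≤ M) :
    (∑ i ∈ s, g i) ^ (n + 1) ≤ M ^ n * ∑ i ∈ s, g i ^ (n + 1) := by
  rcases s.eq_empty_or_nonempty with hs | hs
  · subst hs; simp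
  · have h := pow_sum_div_card_le_sum_pow (s := s) (f := g) hg n
    have hc : (0 : ℝ) < s.card := by exact_mod_cast Finset.card_pos.2 hs
    rw [div_le_iff₀ (pow_pos hc n)] at h
    have h2 : (0 : ℝ) ≤ ∑ i ∈ s, g i ^ (n + 1) :=
      Finset.sum_nonneg (fun i hi => pow_nonneg (hg i hi) _)
    calc (∑ i ∈ s, g i) ^ (n + 1) ≤ (∑ i ∈ s, g i ^ (n + 1)) * (s.card : ℝ) ^ n := h
      _ ≤ (∑ i ∈ s, g i ^ (n + 1)) * M ^ n :=
          mul_le_mul_of_nonneg_left (pow_le_pow_left₀ hc.le hM n) h2
      _ = M ^ n * ∑ i ∈ s, g i ^ (n + 1) := mul_comm _ _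

/-- real indicator -/
noncomputable def ind (p : Prop) : ℝ := if p then 1 else 0

theorem ind_nonneg (p : Prop) : 0 ≤ ind p := by unfold ind; split_ifs <;> norm_num

theorem card_eq_sum {α : Type} [Fintype α] (p : α → Prop) :
    ((univ.filter p).card : ℝ) = ∑ x, ind (p x) := by
  unfold ind
  rw [Finset.card_filter]
  push_cast
  rfl

theorem ind_forall {t : ℕ} (p : Fin t → Prop) : ind (∀ b, p b) = ∏ b, ind (p b) := by
  unfold ind
  by_cases h : ∀ b, p b
  · rw [if_pos h]
    symm
    apply Finset.prod_eq_one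
    intro b _
    rw [if_pos (h b)]
  · rw [if_neg h]
    push Not at h
    obtain ⟨b, hb⟩ := h
    symm
    apply Finset.prod_eq_zero (Finset.mem_univ b)
    rw [if_neg hb]

/-- dense supersaturation: the blow-ups of a `k`-ary relation of density `ρ` have density at least
`ρ ^ (t ^ k)` -/
theorem supersat {Ω : Type} [Fintype Ω] (t : ℕ) (N : ℝ) (hN0 : 0 < N)
    (hN : (Fintype.card Ω : ℝ) ≤ N) :
    ∀ (k : ℕ) (f : (Fin k → Ω) → Prop) (ρ : ℝ), 0 ≤ ρ →
      ρ * N ^ k ≤ ∑ x, ind (f x) →
      ρ ^ ((t + 1) ^ k) * N ^ (k * (t + 1)) ≤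
        ∑ x : Fin k → Fin (t + 1) → Ω, ind (∀ a : Fin k → Fin (t + 1), f (fun i => x i (a i))) := by
  intro k
  induction k with
  | zero =>
    intro f ρ hρ h
    simp only [pow_zero, mul_one, Nat.zero_mul, pow_one] at h ⊢
    refine h.trans ?_
    rw [Fintype.sum_unique, Fintype.sum_unique]
    apply le_of_eq
    congr 1
    apply propext
    constructor
    · intro h a
      have e : (fun i : Fin 0 => (default : Fin 0 → Fin (t + 1) → Ω) i (a i)) =
          (default : Fin 0 → Ω) := funext fun i => i.elim0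
      rw [e]; exact h
    · intro h
      have h' := h (fun i => i.elim0)
      have e : (fun i : Fin 0 => (default : Fin 0 → Fin (t + 1) → Ω) i
          ((fun i : Fin 0 => (i.elim0 : Fin (t + 1))) i)) =
          (default : Fin 0 → Ω) := funext fun i => i.elim0
      rw [e] at h'; exact h'
  | succ k ih =>
    intro f ρ hρ h
    set fz : (Fin (t + 1) → Ω) → (Fin k → Ω) → Prop := fun z y => ∀ b, f (Fin.cons (z b) y) with hfz
    -- blow-ups of `f` are blow-ups of the relations `fz z`
    have h1 : ∑ x : Fin (k + 1) → Fin (t + 1) → Ω,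
        ind (∀ a : Fin (k + 1) → Fin (t + 1), f (fun i => x i (a i))) =
        ∑ z : Fin (t + 1) → Ω, ∑ x' : Fin k → Fin (t + 1) → Ω,
          ind (∀ a : Fin k → Fin (t + 1), fz z (fun i => x' i (a i))) := by
      rw [← Fintype.sum_prod_type']
      symm
      refine Fintype.sum_equiv (Fin.consEquiv (fun _ : Fin (k + 1) => Fin (t + 1) → Ω)) _ _ ?_
      rintro ⟨z, x'⟩
      congr 1
      apply propext
      rw [hfz]
      simp only [Fin.consEquiv, Equiv.coe_fn_mk]
      constructor
      · intro h a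
        have h2 := h (fun i => a i.succ) (a 0)
        convert h2 using 1
        funext i
        refine Fin.cases ?_ (fun j => ?_) i
        · simp
        · simp
      · intro h a b
        have h2 := h (Fin.cons b a)
        convert h2 using 1
        funext i
        refine Fin.cases ?_ (fun j => ?_) i
        · simp
        · simp
    -- the total size of the relations `fz z`
    have h2 : ∑ z : Fin (t + 1) → Ω, ∑ y : Fin k → Ω, ind (fz z y) =
        ∑ y : Fin k → Ω, (∑ w : Ω, ind (f (Fin.cons w y))) ^ (t + 1) := by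
      rw [Finset.sum_comm]
      refine Finset.sum_congr rfl (fun y _ => ?_)
      have e1 : (∑ w : Ω, ind (f (Fin.cons w y))) ^ (t + 1) =
          ∏ _b : Fin (t + 1), ∑ w : Ω, ind (f (Fin.cons w y)) := by
        rw [Finset.prod_const, Finset.card_univ, Fintype.card_fin]
      rw [e1, Finset.prod_univ_sum]
      simp only [Fintype.piFinset_univ]
      refine Finset.sum_congr rfl (fun z _ => ?_)
      rw [hfz]
      exact ind_forall _
    have h3 : ∑ x : Fin (k + 1) → Ω, ind (f x) =
        ∑ y : Fin k → Ω, ∑ w : Ω, ind (f (Fin.cons w y)) := by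
      rw [Finset.sum_comm, ← Fintype.sum_prod_type']
      symm
      refine Fintype.sum_equiv (Fin.consEquiv (fun _ : Fin (k + 1) => Ω)) _ _ ?_
      rintro ⟨z, x'⟩
      rfl
    have hcardk : ((univ : Finset (Fin k → Ω)).card : ℝ) ≤ N ^ k := by
      rw [Finset.card_univ, Fintype.card_fun, Fintype.card_fin]
      push_cast
      exact pow_le_pow_left₀ (by positivity) hN k
    have hcardt : ((univ : Finset (Fin (t + 1) → Ω)).card : ℝ) ≤ N ^ (t + 1) := by
      rw [Finset.card_univ, Fintype.card_fun, Fintype.card_fin]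
      push_cast
      exact pow_le_pow_left₀ (by positivity) hN (t + 1)
    have h4 : ρ ^ (t + 1) * N ^ (t + 1) * N ^ k ≤
        ∑ z : Fin (t + 1) → Ω, ∑ y : Fin k → Ω, ind (fz z y) := by
      have j1 := jensen (univ : Finset (Fin k → Ω)) (fun y => ∑ w : Ω, ind (f (Fin.cons w y)))
        (fun y _ => Finset.sum_nonneg (fun w _ => ind_nonneg _)) t (N ^ k) hcardk
      rw [h2]
      rw [h3] at h
      have j2 : (ρ * N ^ (k + 1)) ^ (t + 1) ≤
          (N ^ k) ^ t * ∑ y : Fin k → Ω, (∑ w : Ω, ind (f (Fin.cons w y))) ^ (t + 1) :=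
        (pow_le_pow_left₀ (by positivity) h _).trans j1
      have j3 : (ρ * N ^ (k + 1)) ^ (t + 1) =
          (N ^ k) ^ t * (ρ ^ (t + 1) * N ^ (t + 1) * N ^ k) := by
        rw [mul_pow]; ring
      rw [j3] at j2
      exact le_of_mul_le_mul_left j2 (by positivity)
    -- induction hypothesis for each `z`
    have h5 : ∀ z : Fin (t + 1) → Ω,
        ((∑ y : Fin k → Ω, ind (fz z y)) / N ^ k) ^ ((t + 1) ^ k) * N ^ (k * (t + 1)) ≤
        ∑ x' : Fin k → Fin (t + 1) → Ω,
          ind (∀ a : Fin k → Fin (t + 1), fz z (fun i => x' i (a i))) := by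
      intro z
      refine ih (fz z) _ (div_nonneg (Finset.sum_nonneg (fun y _ => ind_nonneg _))
        (by positivity)) ?_
      rw [div_mul_cancel₀ _ (by positivity)]
    rw [h1]
    refine le_trans ?_ (Finset.sum_le_sum (fun z _ => h5 z))
    rw [← Finset.sum_mul]
    obtain ⟨m, hm⟩ : ∃ m, (t + 1) ^ k = m + 1 := ⟨(t + 1) ^ k - 1, by
      have : 0 < (t + 1) ^ k := by positivity
      omega⟩
    have j4 := jensen (univ : Finset (Fin (t + 1) → Ω))
      (fun z => (∑ y : Fin k → Ω, ind (fz z y)) / N ^ k)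
      (fun z _ => div_nonneg (Finset.sum_nonneg (fun y _ => ind_nonneg _)) (by positivity)) m
      (N ^ (t + 1)) hcardt
    rw [← hm] at j4
    have j5 : ρ ^ (t + 1) * N ^ (t + 1) ≤
        ∑ z : Fin (t + 1) → Ω, (∑ y : Fin k → Ω, ind (fz z y)) / N ^ k := by
      rw [← Finset.sum_div, le_div_iff₀ (by positivity)]
      exact h4
    have j6 : (ρ ^ (t + 1) * N ^ (t + 1)) ^ ((t + 1) ^ k) ≤ (N ^ (t + 1)) ^ m *
        ∑ z : Fin (t + 1) → Ω,
          ((∑ y : Fin k → Ω, ind (fz z y)) / N ^ k) ^ ((t + 1) ^ k) :=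
      (pow_le_pow_left₀ (by positivity) j5 _).trans j4
    have j7 : (ρ ^ (t + 1) * N ^ (t + 1)) ^ ((t + 1) ^ k) =
        (N ^ (t + 1)) ^ m * (ρ ^ ((t + 1) ^ (k + 1)) * N ^ (t + 1)) := by
      rw [mul_pow, ← pow_mul, hm, pow_succ (N ^ (t + 1)) m, ← hm]
      have : (t + 1) * (t + 1) ^ k = (t + 1) ^ (k + 1) := by rw [pow_succ]; ring
      rw [this]; ring
    rw [j7] at j6
    have j8 := le_of_mul_le_mul_left j6 (by positivity)
    calc ρ ^ ((t + 1) ^ (k + 1)) * N ^ ((k + 1) * (t + 1))
        = (ρ ^ ((t + 1) ^ (k + 1)) * N ^ (t + 1)) * N ^ (k * (t + 1)) := by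
          rw [mul_assoc, ← pow_add]; congr 2; ring
      _ ≤ _ := mul_le_mul_of_nonneg_right j8 (by positivity)

end Pool.Agent.Helper311.Blow
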