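import Mathlib
import Pool.Agent.Helper311.Blow.Supersat

set_option autoImplicit false

/-!
# Many cliques at every vertex force a complete multipartite subgraph (bounded degree version)
-/

namespace Pool.Agent.Helper311.Blow

open Finset Classical

theorem sum_ind_le {α β : Type} [Fintype α] [Fintype β] (p : α → Prop) (q : β → Prop) (F : α → β)
    (h1 : ∀ x, p x → q (F x)) (h2 : ∀ x y, p x → p y → F x = F y → x = y) :
    ∑ x, ind (p x) ≤ ∑ y, ind (q y) := by
  rw [← card_eq_sum, ← card_eq_sum]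
  have : (univ.filter p).card ≤ (univ.filter q).card := by
    refine Finset.card_le_card_of_injOn F ?_ ?_
    · intro x hx
      exact Finset.mem_coe.2 (Finset.mem_filter.2 ⟨Finset.mem_univ _,
        h1 x (Finset.mem_filter.1 (Finset.mem_coe.1 hx)).2⟩)
    · intro x hx y hy hxy
      exact h2 x y (Finset.mem_filter.1 (Finset.mem_coe.1 hx)).2
        (Finset.mem_filter.1 (Finset.mem_coe.1 hy)).2 hxy
  exact_mod_cast this

theorem sum_ind_le' {α β : Type} [Fintype α] [Fintype β] (p : α → Prop) (q : β → Prop) (F : β → α)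
    (h : ∀ x, p x → ∃ y, q y ∧ F y = x) :
    ∑ x, ind (p x) ≤ ∑ y, ind (q y) := by
  rw [← card_eq_sum, ← card_eq_sum]
  have h2 : (univ.filter p) ⊆ (univ.filter q).image F := by
    intro x hx
    obtain ⟨y, hy, hyx⟩ := h x (Finset.mem_filter.1 hx).2
    exact Finset.mem_image.2 ⟨y, Finset.mem_filter.2 ⟨Finset.mem_univ _, hy⟩, hyx⟩
  exact_mod_cast (Finset.card_le_card h2).trans Finset.card_image_le

variable {V : Type} [Fintype V]

/-- ordered `k`-cliques in `Y` in the neighbourhood of `v` -/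
def isCT (G : SimpleGraph V) (k : ℕ) (v : V) (Y : Finset V) (x : Fin k → V) : Prop :=
  (∀ i, x i ∈ Y ∧ G.Adj v (x i)) ∧ ∀ i j, i ≠ j → G.Adj (x i) (x j)

/-- complete `k`-partite patterns with `t + 1` positions per part in `Y` -/
def Pat (G : SimpleGraph V) (k t : ℕ) (Y : Finset V) (x : Fin k → Fin (t + 1) → V) : Prop :=
  (∀ i a, x i a ∈ Y) ∧ ∀ i j, i ≠ j → ∀ a b, G.Adj (x i a) (x j b)

/-- many patterns in the neighbourhood of a rich vertex -/
theorem blow_vertex (G : SimpleGraph V) (k t D : ℕ) (hD : 0 < D)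
    (v : V) (hdeg : G.degree v ≤ D) (Y : Finset V) (θ : ℝ) (hθ : 0 ≤ θ)
    (h : θ * (D : ℝ) ^ k ≤ ∑ x, ind (isCT G k v Y x)) :
    θ ^ ((t + 1) ^ k) * (D : ℝ) ^ (k * (t + 1)) ≤
      ∑ x : Fin k → Fin (t + 1) → V,
        ind (Pat G k t Y x ∧ ∀ i a, G.Adj v (x i a)) := by
  set A : Finset V := (G.neighborFinset v).filter (fun u => u ∈ Y) with hA
  have hΩc : (Fintype.card {u // u ∈ A} : ℝ) ≤ D := by
    rw [Fintype.card_coe]
    exact_mod_cast (Finset.card_filter_le _ _).trans (by
      rw [SimpleGraph.card_neighborFinset_eq_degree]; exact hdeg)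
  have hmem : ∀ u : {u // u ∈ A}, u.1 ∈ Y ∧ G.Adj v u.1 := by
    intro u
    have := Finset.mem_filter.1 u.2
    exact ⟨this.2, by simpa using this.1⟩
  have hmem' : ∀ u, u ∈ Y → G.Adj v u → u ∈ A := fun u hu hvu =>
    Finset.mem_filter.2 ⟨by simpa using hvu, hu⟩
  set f : (Fin k → {u // u ∈ A}) → Prop := fun x => ∀ i j, i ≠ j → G.Adj (x i).1 (x j).1 with hf
  have h1 : θ * (D : ℝ) ^ k ≤ ∑ x, ind (f x) := by
    refine h.trans ?_
    refine sum_ind_le' _ _ (fun x i => (x i).1) ?_
    rintro x ⟨hx1, hx2⟩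
    exact ⟨fun i => ⟨x i, hmem' _ (hx1 i).1 (hx1 i).2⟩, fun i j hij => hx2 i j hij, rfl⟩
  have h3 := supersat t (D : ℝ) (by exact_mod_cast hD) hΩc k f θ hθ h1
  refine h3.trans ?_
  refine sum_ind_le _ _ (fun x i a => (x i a).1) ?_ ?_
  · intro x hx
    refine ⟨⟨fun i a => (hmem _).1, ?_⟩, fun i a => (hmem _).2⟩
    intro i j hij a b
    have := hx (Function.update (fun _ => a) j b) i j hij
    simpa [Function.update_of_ne hij] using this
  · intro x y _ _ hxy
    funext i a
    exact Subtype.ext (congrFun (congrFun hxy i) a)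

/-- few degenerate patterns -/
theorem degenerate {Ω : Type} [Fintype Ω] (k t : ℕ) (i : Fin k) (a b : Fin (t + 1))
    (hab : a ≠ b) :
    ∑ x : Fin k → Fin (t + 1) → Ω, ind (x i a = x i b) ≤
      (Fintype.card Ω : ℝ) ^ (k * (t + 1) - 1) := by
  have hPc : Fintype.card {s : Fin k × Fin (t + 1) // s ≠ (i, a)} = k * (t + 1) - 1 := by
    rw [Fintype.card_subtype_compl, Fintype.card_subtype_eq]
    simp
  have h1 := sum_ind_le (fun x : Fin k → Fin (t + 1) → Ω => x i a = x i b)
    (fun _ : {s : Fin k × Fin (t + 1) // s ≠ (i, a)} → Ω => True)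
    (fun x s => x s.1.1 s.1.2) (fun _ _ => trivial) (by
      intro x y hx' hy' hxy
      have hoff : ∀ s : Fin k × Fin (t + 1), s ≠ (i, a) → x s.1 s.2 = y s.1 s.2 :=
        fun s hs => congrFun hxy ⟨s, hs⟩
      funext i' a'
      by_cases h : (i', a') = (i, a)
      · have h1 : i' = i := congrArg Prod.fst h
        have h2 : a' = a := congrArg Prod.snd h
        subst h1 h2
        rw [hx', hy']
        exact hoff (i', b) (fun h => hab (congrArg Prod.snd h).symm)
      · exact hoff (i', a') h)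
  refine h1.trans (le_of_eq ?_)
  simp only [ind, if_true, Finset.sum_const, Finset.card_univ, Fintype.card_fun, hPc, nsmul_eq_mul,
    mul_one]
  push_cast
  rfl

/-- few patterns in bounded degree graphs -/
theorem pat_count (G : SimpleGraph V) (k t D : ℕ) (hk : 2 ≤ k) (hD : 0 < D)
    (hdeg : ∀ v, G.degree v ≤ D) (Y : Finset V) :
    ∑ x : Fin k → Fin (t + 1) → V, ind (Pat G k t Y x) ≤
      Y.card * (D : ℝ) ^ (k * (t + 1) - 1) := by
  have hg : ∀ v : V, ∃ g : V → Fin D, ∀ u w, G.Adj v u → G.Adj v w → g u = g w → u = w := by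
    intro v
    obtain ⟨e⟩ : Nonempty ({u // u ∈ G.neighborFinset v} ↪ Fin D) := by
      rw [Function.Embedding.nonempty_iff_card_le, Fintype.card_coe, Fintype.card_fin,
        SimpleGraph.card_neighborFinset_eq_degree]
      exact hdeg v
    refine ⟨fun u => if hu : u ∈ G.neighborFinset v then e ⟨u, hu⟩ else ⟨0, hD⟩, ?_⟩
    intro u w hu hw h
    have hu' : u ∈ G.neighborFinset v := by simpa using hu
    have hw' : w ∈ G.neighborFinset v := by simpa using hw
    simp only [hu', hw', dif_pos] at h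
    have := e.injective h
    simpa using this
  choose g hg using hg
  set i0 : Fin k := ⟨0, by omega⟩ with hi0
  set i1 : Fin k := ⟨1, by omega⟩ with hi1
  have hi01 : i0 ≠ i1 := by
    intro h
    have := congrArg Fin.val h
    simp [hi0, hi1] at this
  have hPc : Fintype.card {s : Fin k × Fin (t + 1) // s ≠ (i0, 0)} = k * (t + 1) - 1 := by
    rw [Fintype.card_subtype_compl, Fintype.card_subtype_eq]
    simp
  set ref : (Fin k → Fin (t + 1) → V) → Fin k → V :=
    fun x i => if i = i0 then x i1 0 else x i0 0 with href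
  have h1 := sum_ind_le (fun x : Fin k → Fin (t + 1) → V => Pat G k t Y x)
    (fun z : V × ({s : Fin k × Fin (t + 1) // s ≠ (i0, 0)} → Fin D) => z.1 ∈ Y)
    (fun x => (x i0 0, fun s => g (ref x s.1.1) (x s.1.1 s.1.2)))
    (fun x hx' => hx'.1 _ _) (by
      intro x y hx' hy' hxy
      have e0 : x i0 0 = y i0 0 := congrArg Prod.fst hxy
      have e1 : ∀ s : {s : Fin k × Fin (t + 1) // s ≠ (i0, 0)},
          g (ref x s.1.1) (x s.1.1 s.1.2) = g (ref y s.1.1) (y s.1.1 s.1.2) :=
        fun s => congrFun (congrArg Prod.snd hxy) s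
      have e2 : ∀ i, i ≠ i0 → ∀ a, x i a = y i a := by
        intro i hi a
        have hne : ((i, a) : Fin k × Fin (t + 1)) ≠ (i0, 0) := fun h => hi (congrArg Prod.fst h)
        have h2 := e1 ⟨(i, a), hne⟩
        have r1 : ref x i = x i0 0 := by rw [href]; simp [hi]
        have r2 : ref y i = x i0 0 := by rw [href, e0]; simp [hi]
        simp only [r1, r2] at h2
        refine hg _ _ _ ?_ ?_ h2
        · exact hx'.2 i0 i (Ne.symm hi) 0 a
        · rw [e0]; exact hy'.2 i0 i (Ne.symm hi) 0 a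
      funext i a
      by_cases hi : i = i0
      · subst hi
        by_cases ha : a = 0
        · subst ha; exact e0
        · have hne : ((i0, a) : Fin k × Fin (t + 1)) ≠ (i0, 0) := fun h => ha (congrArg Prod.snd h)
          have h2 := e1 ⟨(i0, a), hne⟩
          have r1 : ref x i0 = x i1 0 := by rw [href]; simp
          have r2 : ref y i0 = x i1 0 := by rw [href]; simp [e2 i1 hi01.symm 0]
          simp only [r1, r2] at h2
          refine hg _ _ _ ?_ ?_ h2
          · exact hx'.2 i1 i0 hi01.symm 0 a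
          · rw [e2 i1 hi01.symm 0]; exact hy'.2 i1 i0 hi01.symm 0 a
      · exact e2 i hi a)
  refine h1.trans (le_of_eq ?_)
  rw [Fintype.sum_prod_type]
  simp only [Finset.sum_const, Finset.card_univ, Fintype.card_fun, hPc, nsmul_eq_mul,
    Fintype.card_fin]
  rw [← Finset.mul_sum, ← card_eq_sum, mul_comm]
  push_cast
  congr 2
  congr 1
  ext v; simp

/-- If every vertex of the nonempty set `Y` has many ordered `k`-cliques in its neighbourhood in
`Y`, then `G` contains a nondegenerate complete `(k+1)`-partite pattern. -/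
theorem rich_pattern (G : SimpleGraph V) (k t D : ℕ) (hk : 2 ≤ k) (hD : 0 < D)
    (hdeg : ∀ v, G.degree v ≤ D) (Y : Finset V) (hY : Y.Nonempty) (θ : ℝ) (hθ : 0 ≤ θ)
    (hrich : ∀ v ∈ Y, θ * (D : ℝ) ^ k ≤ ∑ x, ind (isCT G k v Y x))
    (hbig : (k * (t + 1) ^ 2 + (t + 1) : ℝ) < θ ^ ((t + 1) ^ k) * D) :
    ∃ (x : Fin k → Fin (t + 1) → V) (y : Fin (t + 1) → V),
      (∀ i, Function.Injective (x i)) ∧ Function.Injective y ∧
      (∀ i j, i ≠ j → ∀ a b, G.Adj (x i a) (x j b)) ∧ ∀ i a b, G.Adj (y b) (x i a) := by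
  have hDr : (0 : ℝ) < D := by exact_mod_cast hD
  set q : ℕ := k * (t + 1) with hq
  have hq1 : 1 ≤ q := by rw [hq]; nlinarith
  obtain ⟨q', hq'⟩ : ∃ q', q = q' + 1 := ⟨q - 1, by omega⟩
  -- nondegenerate
  set nd : (Fin k → Fin (t + 1) → V) → Prop := fun x => ∀ i, Function.Injective (x i) with hnd
  -- lower bound for all pairs
  have hL : (Y.card : ℝ) * (θ ^ ((t + 1) ^ k) * (D : ℝ) ^ q) ≤
      ∑ v ∈ Y, ∑ x : Fin k → Fin (t + 1) → V, ind (Pat G k t Y x ∧ ∀ i a, G.Adj v (x i a)) := by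
    rw [← nsmul_eq_mul, ← Finset.sum_const]
    exact Finset.sum_le_sum (fun v hv => blow_vertex G k t D hD v (hdeg v) Y θ hθ (hrich v hv))
  -- degenerate pairs
  have hdegen : ∀ v ∈ Y, ∑ x : Fin k → Fin (t + 1) → V,
      ind ((Pat G k t Y x ∧ ∀ i a, G.Adj v (x i a)) ∧ ¬ nd x) ≤
        (k * (t + 1) ^ 2 : ℝ) * (D : ℝ) ^ q' := by
    intro v _
    have e1 : ∀ x : Fin k → Fin (t + 1) → V,
        ind ((Pat G k t Y x ∧ ∀ i a, G.Adj v (x i a)) ∧ ¬ nd x) ≤
        ∑ i : Fin k, ∑ a : Fin (t + 1), ∑ b : Fin (t + 1),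
          ind ((∀ i a, G.Adj v (x i a)) ∧ a ≠ b ∧ x i a = x i b) := by
      intro x
      by_cases h : (Pat G k t Y x ∧ ∀ i a, G.Adj v (x i a)) ∧ ¬ nd x
      · obtain ⟨⟨h1, h2⟩, h3⟩ := h
        rw [hnd] at h3
        push Not at h3
        obtain ⟨i, hi⟩ := h3
        rw [Function.Injective] at hi
        push Not at hi
        obtain ⟨a, b, hab, hne⟩ := hi
        have h4 : ind ((Pat G k t Y x ∧ ∀ i a, G.Adj v (x i a)) ∧ ¬ nd x) ≤
            ind ((∀ i a, G.Adj v (x i a)) ∧ a ≠ b ∧ x i a = x i b) := by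
          unfold ind
          rw [if_pos (show (∀ i a, G.Adj v (x i a)) ∧ a ≠ b ∧ x i a = x i b from ⟨h2, hne, hab⟩)]
          split_ifs <;> norm_num
        refine h4.trans ?_
        refine le_trans ?_ (Finset.single_le_sum (f := fun i => ∑ a : Fin (t + 1),
          ∑ b : Fin (t + 1), ind ((∀ i a, G.Adj v (x i a)) ∧ a ≠ b ∧ x i a = x i b))
          (fun i _ => Finset.sum_nonneg (fun a _ => Finset.sum_nonneg (fun b _ => ind_nonneg _)))
          (Finset.mem_univ i))
        refine le_trans ?_ (Finset.single_le_sum (f := fun a =>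
          ∑ b : Fin (t + 1), ind ((∀ i a, G.Adj v (x i a)) ∧ a ≠ b ∧ x i a = x i b))
          (fun a _ => Finset.sum_nonneg (fun b _ => ind_nonneg _))
          (Finset.mem_univ a))
        exact Finset.single_le_sum (f := fun b =>
          ind ((∀ i a, G.Adj v (x i a)) ∧ a ≠ b ∧ x i a = x i b))
          (fun b _ => ind_nonneg _) (Finset.mem_univ b)
      · have : ind ((Pat G k t Y x ∧ ∀ i a, G.Adj v (x i a)) ∧ ¬ nd x) = 0 := by
          unfold ind; rw [if_neg h]
        rw [this]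
        exact Finset.sum_nonneg (fun i _ => Finset.sum_nonneg (fun a _ =>
          Finset.sum_nonneg (fun b _ => ind_nonneg _)))
    refine (Finset.sum_le_sum (fun x _ => e1 x)).trans ?_
    rw [Finset.sum_comm]
    have e2 : ∀ (i : Fin k) (a b : Fin (t + 1)), ∑ x : Fin k → Fin (t + 1) → V,
        ind ((∀ i a, G.Adj v (x i a)) ∧ a ≠ b ∧ x i a = x i b) ≤ (D : ℝ) ^ q' := by
      intro i a b
      by_cases hab : a = b
      · have : ∀ x : Fin k → Fin (t + 1) → V,
            ind ((∀ i a, G.Adj v (x i a)) ∧ a ≠ b ∧ x i a = x i b) = 0 := by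
          intro x; unfold ind; rw [if_neg]; rintro ⟨-, h, -⟩; exact h hab
        simp only [this, Finset.sum_const_zero]
        positivity
      · have hmem : ∀ u, G.Adj v u → u ∈ G.neighborFinset v := fun u hu => by simpa using hu
        have e3 : ∑ x : Fin k → Fin (t + 1) → V,
            ind ((∀ i a, G.Adj v (x i a)) ∧ a ≠ b ∧ x i a = x i b) ≤
            ∑ x : Fin k → Fin (t + 1) → {u // u ∈ G.neighborFinset v}, ind (x i a = x i b) := by
          refine sum_ind_le' _ _ (fun x i a => (x i a).1) ?_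
          rintro x ⟨hx1, -, hx2⟩
          exact ⟨fun i a => ⟨x i a, hmem _ (hx1 i a)⟩, Subtype.ext hx2, rfl⟩
        refine e3.trans ((degenerate k t i a b hab).trans ?_)
        rw [← hq, hq', Nat.add_sub_cancel, Fintype.card_coe,
          SimpleGraph.card_neighborFinset_eq_degree]
        exact pow_le_pow_left₀ (by positivity) (by exact_mod_cast hdeg v) _
    have e4 : ∀ i : Fin k, ∑ x : Fin k → Fin (t + 1) → V, ∑ a : Fin (t + 1), ∑ b : Fin (t + 1),
        ind ((∀ i a, G.Adj v (x i a)) ∧ a ≠ b ∧ x i a = x i b) ≤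
        (t + 1 : ℝ) * ((t + 1) * (D : ℝ) ^ q') := by
      intro i
      rw [Finset.sum_comm]
      have : ∀ a : Fin (t + 1), ∑ x : Fin k → Fin (t + 1) → V, ∑ b : Fin (t + 1),
          ind ((∀ i a, G.Adj v (x i a)) ∧ a ≠ b ∧ x i a = x i b) ≤ (t + 1) * (D : ℝ) ^ q' := by
        intro a
        rw [Finset.sum_comm]
        refine (Finset.sum_le_sum (fun b _ => e2 i a b)).trans ?_
        rw [Finset.sum_const, Finset.card_univ, Fintype.card_fin, nsmul_eq_mul]
        push_cast; exact le_refl _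
      refine (Finset.sum_le_sum (fun a _ => this a)).trans ?_
      rw [Finset.sum_const, Finset.card_univ, Fintype.card_fin, nsmul_eq_mul]
      push_cast; exact le_refl _
    refine (Finset.sum_le_sum (fun i _ => e4 i)).trans ?_
    rw [Finset.sum_const, Finset.card_univ, Fintype.card_fin, nsmul_eq_mul]
    exact le_of_eq (by ring)
  -- a nondegenerate pattern with many common neighbours
  by_contra hcon
  have hfew : ∀ x : Fin k → Fin (t + 1) → V,
      ∑ v ∈ Y, ind ((Pat G k t Y x ∧ ∀ i a, G.Adj v (x i a)) ∧ nd x) ≤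
        (t + 1 : ℝ) * ind (Pat G k t Y x) := by
    intro x
    by_cases hx : Pat G k t Y x ∧ nd x
    · by_contra hgt
      push Not at hgt
      apply hcon
      have h1 : ∑ v ∈ Y, ind ((Pat G k t Y x ∧ ∀ i a, G.Adj v (x i a)) ∧ nd x) ≤
          ((Y.filter (fun v => ∀ i a, G.Adj v (x i a))).card : ℝ) := by
        rw [Finset.card_filter]
        push_cast
        refine Finset.sum_le_sum (fun v _ => ?_)
        unfold ind
        by_cases h : ∀ i a, G.Adj v (x i a)
        · rw [if_pos h]; split_ifs <;> norm_num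
        · rw [if_neg h, if_neg (fun h' => h h'.1.2)]
      have h2 : ind (Pat G k t Y x) = 1 := by unfold ind; rw [if_pos hx.1]
      rw [h2, mul_one] at hgt
      have h3 : t + 1 ≤ (Y.filter (fun v => ∀ i a, G.Adj v (x i a))).card := by
        have := lt_of_lt_of_le hgt h1
        exact_mod_cast this.le
      obtain ⟨Y', hY'1, hY'2⟩ := Finset.exists_subset_card_eq h3
      have e : Fin (t + 1) ≃ {v // v ∈ Y'} := (Finset.equivFinOfCardEq hY'2).symm
      refine ⟨x, fun b => (e b).1, hx.2, fun a b hab => e.injective (Subtype.ext hab), hx.1.2, ?_⟩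
      intro i a b
      exact (Finset.mem_filter.1 (hY'1 (e b).2)).2 i a
    · have h1 : ∀ v ∈ Y, ind ((Pat G k t Y x ∧ ∀ i a, G.Adj v (x i a)) ∧ nd x) = 0 := by
        intro v _
        unfold ind
        rw [if_neg]
        rintro ⟨⟨h1, -⟩, h2⟩
        exact hx ⟨h1, h2⟩
      rw [Finset.sum_congr rfl h1, Finset.sum_const_zero]
      exact mul_nonneg (by positivity) (ind_nonneg _)
  have hU : ∑ v ∈ Y, ∑ x : Fin k → Fin (t + 1) → V, ind (Pat G k t Y x ∧ ∀ i a, G.Adj v (x i a)) ≤
      (Y.card : ℝ) * ((k * (t + 1) ^ 2 : ℝ) * (D : ℝ) ^ q') +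
        (t + 1 : ℝ) * (Y.card * (D : ℝ) ^ q') := by
    have e1 : ∀ v ∈ Y, ∑ x : Fin k → Fin (t + 1) → V,
        ind (Pat G k t Y x ∧ ∀ i a, G.Adj v (x i a)) ≤
        (k * (t + 1) ^ 2 : ℝ) * (D : ℝ) ^ q' + ∑ x : Fin k → Fin (t + 1) → V,
          ind ((Pat G k t Y x ∧ ∀ i a, G.Adj v (x i a)) ∧ nd x) := by
      intro v hv
      refine le_trans ?_ (add_le_add (hdegen v hv) le_rfl)
      rw [← Finset.sum_add_distrib]
      refine Finset.sum_le_sum (fun x _ => ?_)
      unfold ind
      by_cases h1 : Pat G k t Y x ∧ ∀ i a, G.Adj v (x i a)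
      · by_cases h2 : nd x
        · simp [h1, h2]
        · simp [h1, h2]
      · simp [h1]
    refine (Finset.sum_le_sum e1).trans ?_
    rw [Finset.sum_add_distrib, Finset.sum_const, nsmul_eq_mul]
    refine add_le_add le_rfl ?_
    rw [Finset.sum_comm]
    refine (Finset.sum_le_sum (fun x _ => hfew x)).trans ?_
    rw [← Finset.mul_sum]
    refine mul_le_mul_of_nonneg_left ?_ (by positivity)
    have := pat_count G k t D hk hD hdeg Y
    rwa [← hq, hq', Nat.add_sub_cancel] at this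
  have hYpos : (0 : ℝ) < Y.card := by exact_mod_cast Finset.card_pos.2 hY
  have hfin := hL.trans hU
  rw [hq', pow_succ] at hfin
  have hDq : (0 : ℝ) < (D : ℝ) ^ q' := by positivity
  have h5 : (Y.card : ℝ) * (D : ℝ) ^ q' * (θ ^ ((t + 1) ^ k) * D) ≤
      (Y.card : ℝ) * (D : ℝ) ^ q' * (k * (t + 1) ^ 2 + (t + 1)) := by
    calc _ = (Y.card : ℝ) * (θ ^ ((t + 1) ^ k) * ((D : ℝ) ^ q' * D)) := by ring
      _ ≤ _ := hfin
      _ = _ := by ring
  have h6 := le_of_mul_le_mul_left h5 (by positivity)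
  linarith

end Pool.Agent.Helper311.Blow
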