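import Mathlib
import Pool.Agent.Helper635.LLL
import Pool.Agent.H238R2.HY.Part
import Pool.Agent.Helper311.Glue.Main
import Pool.Agent.Helper311.Blow.Rich

set_option autoImplicit false

/-!
# Several random partitions
-/

namespace Pool.Agent.Helper311.Blow

open Finset Pool.Agent.Helper635.LLL Pool.Agent.Helper311.Glue Classical

/-- elimination ordering -/
theorem elim_order {V : Type} (small : V → Finset V → Prop) :
    ∀ (n : ℕ) (Y : Finset V), Y.card = n →
      (∀ Y' ⊆ Y, Y'.Nonempty → ∃ v ∈ Y', small v Y') →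
      ∃ Z : V → Finset V, (∀ v ∈ Y, small v (Z v)) ∧
        ∀ Q ⊆ Y, Q.Nonempty → ∃ v ∈ Q, Q ⊆ Z v := by
  intro n
  induction n with
  | zero =>
    intro Y hY _
    rw [Finset.card_eq_zero] at hY
    subst hY
    refine ⟨fun _ => ∅, by simp, ?_⟩
    intro Q hQ hQne
    rw [Finset.subset_empty] at hQ
    subst hQ
    exact absurd hQne (by simp)
  | succ n ih =>
    intro Y hY h
    obtain ⟨v, hv, hvs⟩ := h Y (Finset.Subset.refl _) (Finset.card_pos.1 (by omega))
    obtain ⟨Z, hZ1, hZ2⟩ := ih (Y.erase v) (by rw [Finset.card_erase_of_mem hv, hY]; rfl)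
      (fun Y' hY' => h Y' (hY'.trans (Finset.erase_subset _ _)))
    refine ⟨Function.update Z v Y, ?_, ?_⟩
    · intro w hw
      by_cases hwv : w = v
      · subst hwv; rw [Function.update_self]; exact hvs
      · rw [Function.update_of_ne hwv]; exact hZ1 w (Finset.mem_erase.2 ⟨hwv, hw⟩)
    · intro Q hQ hQne
      by_cases hvQ : v ∈ Q
      · exact ⟨v, hvQ, by rw [Function.update_self]; exact hQ⟩
      · obtain ⟨w, hw, hwQ⟩ := hZ2 Q (fun u hu => Finset.mem_erase.2
          ⟨fun h => hvQ (h ▸ hu), hQ hu⟩) hQne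
        have hwv : w ≠ v := fun h => hvQ (h ▸ hw)
        exact ⟨w, hw, by rw [Function.update_of_ne hwv]; exact hwQ⟩

/-- a vertex together with the index of a partition -/
structure Site (V : Type) (M : ℕ) where
  v : V
  j : Fin M

noncomputable instance {V : Type} [Fintype V] {M : ℕ} : Fintype (Site V M) :=
  Fintype.ofEquiv (V × Fin M) ⟨fun p => ⟨p.1, p.2⟩, fun s => (s.v, s.j), fun _ => rfl, fun _ => rfl⟩

/-- `M` fixed tuples are monochromatic in `M` partitions -/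
theorem mono_count {V : Type} [Fintype V] (K M k : ℕ) (v : V)
    (τ : Fin M → Fin k → V) (hτ : ∀ j, Function.Injective (τ j)) (hv : ∀ j i, τ j i ≠ v) :
    cnt (fun ω : Site V M → Fin K => ∀ j i, ω ⟨τ j i, j⟩ = ω ⟨v, j⟩) * K ^ (k * M) ≤
      Fintype.card (Site V M → Fin K) := by
  set R : Finset (Site V M) := univ.image (fun p : Fin M × Fin k => ⟨τ p.1 p.2, p.1⟩) with hR
  have hRc : R.card = k * M := by
    rw [hR, Finset.card_image_of_injective]
    · rw [Finset.card_univ, Fintype.card_prod, Fintype.card_fin, Fintype.card_fin, mul_comm]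
    · rintro ⟨j, i⟩ ⟨j', i'⟩ h
      have h1 : j = j' := congrArg Site.j h
      subst h1
      have h2 : τ j i = τ j i' := congrArg Site.v h
      rw [hτ j h2]
  have hmemR : ∀ j i, (⟨τ j i, j⟩ : Site V M) ∈ R := fun j i => by
    rw [hR]; exact Finset.mem_image.2 ⟨(j, i), Finset.mem_univ _, rfl⟩
  have hvR : ∀ j, (⟨v, j⟩ : Site V M) ∉ R := by
    intro j h
    rw [hR] at h
    obtain ⟨⟨j', i⟩, -, h2⟩ := Finset.mem_image.1 h
    exact hv j' i (congrArg Site.v h2)
  have h1 : cnt (fun ω : Site V M → Fin K => ∀ j i, ω ⟨τ j i, j⟩ = ω ⟨v, j⟩) ≤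
      Fintype.card ({p // p ∈ Rᶜ} → Fin K) := by
    rw [← Finset.card_univ, cnt]
    refine Finset.card_le_card_of_injOn (fun ω p => ω p.1) (fun _ _ => by simp) ?_
    intro ω hω ω' hω' h
    have hω1 := mem_ev.1 (Finset.mem_coe.1 hω)
    have hω2 := mem_ev.1 (Finset.mem_coe.1 hω')
    have hoff : ∀ p, p ∉ R → ω p = ω' p := fun p hp =>
      congrFun h ⟨p, Finset.mem_compl.2 hp⟩
    funext p
    by_cases hp : p ∈ R
    · rw [hR] at hp
      obtain ⟨⟨j, i⟩, -, h2⟩ := Finset.mem_image.1 hp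
      subst h2
      simp only
      rw [hω1 j i, hω2 j i]
      exact hoff _ (hvR j)
    · exact hoff p hp
  have h2 : Fintype.card ({p // p ∈ Rᶜ} → Fin K) * K ^ (k * M) =
      Fintype.card (Site V M → Fin K) := by
    rw [Fintype.card_fun, Fintype.card_fun, Fintype.card_fin, Fintype.card_coe,
      Finset.card_compl, ← hRc, ← pow_add]
    congr 1
    exact Nat.sub_add_cancel (Finset.card_le_univ R)
  calc _ ≤ Fintype.card ({p // p ∈ Rᶜ} → Fin K) * K ^ (k * M) := Nat.mul_le_mul_right _ h1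
    _ = _ := h2

/-- all `M` partitions are bad at `v` only rarely -/
theorem bad_count {V : Type} [Fintype V] (K M k : ℕ) (hK : 1 ≤ K) (v : V)
    (𝒯 : Finset (Fin k → V)) (h𝒯 : ∀ x ∈ 𝒯, Function.Injective x ∧ ∀ i, x i ≠ v) (B : ℝ)
    (hB : (𝒯.card : ℝ) ≤ B) :
    (cnt (fun ω : Site V M → Fin K => ∀ j, ∃ x ∈ 𝒯, ∀ i, ω ⟨x i, j⟩ = ω ⟨v, j⟩) : ℝ) ≤
      (B / (K : ℝ) ^ k) ^ M * Fintype.card (Site V M → Fin K) := by
  have hKpos : (0 : ℝ) < K := by exact_mod_cast hK
  have hsub : ev (fun ω : Site V M → Fin K => ∀ j, ∃ x ∈ 𝒯, ∀ i, ω ⟨x i, j⟩ = ω ⟨v, j⟩) ⊆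
      (Fintype.piFinset (fun _ : Fin M => 𝒯)).biUnion
        (fun τ => ev (fun ω : Site V M → Fin K => ∀ j i, ω ⟨τ j i, j⟩ = ω ⟨v, j⟩)) := by
    intro ω hω
    have h := mem_ev.1 hω
    choose τ hτ1 hτ2 using h
    refine Finset.mem_biUnion.2 ⟨τ, Fintype.mem_piFinset.2 hτ1, mem_ev.2 ?_⟩
    intro j i
    exact hτ2 j i
  have h1 := (Finset.card_le_card hsub).trans Finset.card_biUnion_le
  have h2 : (cnt (fun ω : Site V M → Fin K => ∀ j, ∃ x ∈ 𝒯, ∀ i, ω ⟨x i, j⟩ = ω ⟨v, j⟩) : ℝ) ≤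
      ∑ τ ∈ Fintype.piFinset (fun _ : Fin M => 𝒯),
        (cnt (fun ω : Site V M → Fin K => ∀ j i, ω ⟨τ j i, j⟩ = ω ⟨v, j⟩) : ℝ) := by
    exact_mod_cast h1
  refine h2.trans ?_
  have h3 : ∀ τ ∈ Fintype.piFinset (fun _ : Fin M => 𝒯),
      (cnt (fun ω : Site V M → Fin K => ∀ j i, ω ⟨τ j i, j⟩ = ω ⟨v, j⟩) : ℝ) ≤
        Fintype.card (Site V M → Fin K) / (K : ℝ) ^ (k * M) := by
    intro τ hτ
    rw [Fintype.mem_piFinset] at hτ
    rw [le_div_iff₀ (by positivity)]
    exact_mod_cast mono_count K M k v τ (fun j => (h𝒯 _ (hτ j)).1) (fun j i => (h𝒯 _ (hτ j)).2 i)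
  refine (Finset.sum_le_sum h3).trans ?_
  rw [Finset.sum_const, nsmul_eq_mul, Fintype.card_piFinset_const, div_pow, ← pow_mul]
  push_cast
  have h4 : (𝒯.card : ℝ) ^ M ≤ B ^ M := pow_le_pow_left₀ (by positivity) hB M
  calc (𝒯.card : ℝ) ^ M * (Fintype.card (Site V M → Fin K) / (K : ℝ) ^ (k * M))
      ≤ B ^ M * (Fintype.card (Site V M → Fin K) / (K : ℝ) ^ (k * M)) :=
        mul_le_mul_of_nonneg_right h4 (by positivity)
    _ = _ := by ring

/-- `M` balanced partitions such that every vertex is good in one of them -/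
theorem partitions {V : Type} [Fintype V] (G : SimpleGraph V) [DecidableRel G.Adj]
    (K M k D : ℕ) (hK : 1 ≤ K) (hdeg : ∀ v, G.degree v ≤ D)
    (𝒯 : V → Finset (Fin k → V))
    (h𝒯 : ∀ v, ∀ x ∈ 𝒯 v, Function.Injective x ∧ ∀ i, G.Adj v (x i)) (B : ℝ)
    (hB0 : 0 ≤ B) (hB : ∀ v, ((𝒯 v).card : ℝ) ≤ B)
    (h4 : 4 * (M * (K * Real.exp (-((1 : ℝ) ^ 2 * D / (3 * K)))) + (B / (K : ℝ) ^ k) ^ M) *
      ((D + 1) ^ 2 : ℕ) ≤ 1) :
    ∃ (ω : V → Fin M → Fin K) (J : V → Fin M),
      (∀ v j c, ((G.neighborFinset v).filter (fun u => ω u j = c)).card ≤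
        ⌊(1 + 1) * (D : ℝ) / K⌋₊) ∧
      ∀ v, ∀ x ∈ 𝒯 v, ¬ ∀ i, ω (x i) (J v) = ω v (J v) := by
  have : Nonempty (Fin K) := ⟨⟨0, hK⟩⟩
  have hcardpos : 0 < Fintype.card (Site V M → Fin K) := Fintype.card_pos
  have hKpos : (0 : ℝ) < K := by exact_mod_cast hK
  set w := ⌊(1 + 1) * (D : ℝ) / K⌋₊ with hw
  have hm : (1 + 1) * (D : ℝ) / K ≤ ((w + 1 : ℕ) : ℝ) := by
    push_cast; exact (Nat.lt_floor_add_one _).le
  set NS : V → Fin M → Finset (Site V M) := fun v j => (G.neighborFinset v).image (fun u => ⟨u, j⟩)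
    with hNS
  have hNSc : ∀ v j, (NS v j).card ≤ D := by
    intro v j
    rw [hNS]
    exact Finset.card_image_le.trans (by
      rw [SimpleGraph.card_neighborFinset_eq_degree]; exact hdeg v)
  set B1 : V → (Site V M → Fin K) → Prop := fun v ω => ∃ (j : Fin M) (c : Fin K),
      w + 1 ≤ ((NS v j).filter (fun u => ω u = c)).card with hB1
  set B2 : V → (Site V M → Fin K) → Prop := fun v ω => ∀ j, ∃ x ∈ 𝒯 v,
      ∀ i, ω ⟨x i, j⟩ = ω ⟨v, j⟩ with hB2
  set Sv : V → Finset (Site V M) := fun v =>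
      univ.filter (fun s => s.v ∈ insert v (G.neighborFinset v)) with hSv
  obtain ⟨ω, hω⟩ := lll (ι := V) univ (fun v (ω : Site V M → Fin K) => B1 v ω ∨ B2 v ω) Sv
    (by
      intro v _ ω ω' hag hbad
      have hag1 : ∀ u ∈ G.neighborFinset v, ∀ j, ω ⟨u, j⟩ = ω' ⟨u, j⟩ := fun u hu j =>
        hag ⟨u, j⟩ (by
          rw [hSv]
          exact Finset.mem_filter.2 ⟨Finset.mem_univ _, Finset.mem_insert_of_mem hu⟩)
      have hag2 : ∀ j, ω ⟨v, j⟩ = ω' ⟨v, j⟩ := fun j =>
        hag ⟨v, j⟩ (by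
          rw [hSv]
          exact Finset.mem_filter.2 ⟨Finset.mem_univ _, Finset.mem_insert_self _ _⟩)
      rcases hbad with ⟨j, c, hy⟩ | hl
      · left
        refine ⟨j, c, le_trans hy (Finset.card_le_card ?_)⟩
        intro u hu
        rw [mem_filter] at hu ⊢
        refine ⟨hu.1, ?_⟩
        obtain ⟨u', hu', rfl⟩ := Finset.mem_image.1 hu.1
        rw [← hag1 u' hu' j]; exact hu.2
      · right
        intro j
        obtain ⟨x, hx, hxj⟩ := hl j
        refine ⟨x, hx, fun i => ?_⟩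
        rw [← hag1 (x i) (by simpa using (h𝒯 v x hx).2 i) j, ← hag2 j]
        exact hxj i)
    (M * (K * Real.exp (-((1 : ℝ) ^ 2 * D / (3 * K)))) + (B / (K : ℝ) ^ k) ^ M)
    ((D + 1) ^ 2) (by positivity)
    (by
      intro v _
      have hsub : ev (fun ω : Site V M → Fin K => B1 v ω ∨ B2 v ω) ⊆
          ((Finset.univ : Finset (Fin M × Fin K)).biUnion
            (fun y => ev (fun ω : Site V M → Fin K => w + 1 ≤ ((NS v y.1).filter
              (fun u => ω u = y.2)).card))) ∪ ev (fun ω : Site V M → Fin K => B2 v ω) := by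
        intro ω hω
        rw [mem_ev] at hω
        rw [Finset.mem_union, Finset.mem_biUnion]
        rcases hω with ⟨j, c, hj⟩ | hl
        · left; exact ⟨(j, c), Finset.mem_univ _, mem_ev.mpr hj⟩
        · right; exact mem_ev.mpr hl
      have h1 := (Finset.card_le_card hsub).trans ((Finset.card_union_le _ _).trans
        (Nat.add_le_add_right Finset.card_biUnion_le _))
      have h2 : (cnt (fun ω : Site V M → Fin K => B1 v ω ∨ B2 v ω) : ℝ) ≤
          (∑ y : Fin M × Fin K,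
          (cnt (fun ω : Site V M → Fin K => w + 1 ≤ ((NS v y.1).filter
              (fun u => ω u = y.2)).card) : ℝ)) +
          (cnt (fun ω : Site V M → Fin K => B2 v ω) : ℝ) := by
        exact_mod_cast h1
      refine h2.trans ?_
      rw [add_mul]
      refine add_le_add ?_ ?_
      · refine (Finset.sum_le_sum (fun y _ => Pool.Agent.H238R2.HY.tail K D hK
          (NS v y.1) (hNSc v y.1) y.2 1 zero_le_one le_rfl (w + 1) hm)).trans ?_
        rw [Finset.sum_const, Finset.card_univ, Fintype.card_prod, Fintype.card_fin,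
          Fintype.card_fin, nsmul_eq_mul]
        push_cast
        exact le_of_eq (by ring)
      · exact bad_count K M k hK v (𝒯 v) (fun x hx => ⟨(h𝒯 v x hx).1, fun i h =>
          ((h𝒯 v x hx).2 i).ne h.symm⟩) B (hB v))
    (by
      intro v _
      have hnear : ∀ v, ∀ z ∈ Sv v, Near G 1 v z.v := by
        intro v z hz
        rw [hSv] at hz
        have h1 := (Finset.mem_filter.1 hz).2
        rcases Finset.mem_insert.1 h1 with hz | hz
        · rw [hz]; exact ⟨SimpleGraph.Walk.nil, by simp⟩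
        · rw [SimpleGraph.mem_neighborFinset] at hz
          exact ⟨SimpleGraph.Walk.cons hz SimpleGraph.Walk.nil, by simp⟩
      refine le_trans (Finset.card_le_card ?_) (near_card G D hdeg 2 v)
      intro j hj
      rw [mem_filter, Finset.not_disjoint_iff] at hj
      obtain ⟨z, hz1, hz2⟩ := hj.2
      rw [mem_filter]
      exact ⟨Finset.mem_univ _, (hnear v z hz1).trans (hnear j z hz2).symm⟩)
    (by exact_mod_cast h4) (Nat.one_le_pow _ _ (by omega)) hcardpos
  have hgood : ∀ v, ∃ j : Fin M, ∀ x ∈ 𝒯 v, ¬ ∀ i, ω ⟨x i, j⟩ = ω ⟨v, j⟩ := by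
    intro v
    have h1 := hω v (mem_univ v)
    rw [not_or] at h1
    have h2 := h1.2
    rw [hB2] at h2
    simp only [not_forall, not_exists, not_and] at h2
    obtain ⟨j, hj⟩ := h2
    refine ⟨j, fun x hx hall => ?_⟩
    obtain ⟨i, hi⟩ := hj x hx
    exact hi (hall i)
  choose J hJ using hgood
  refine ⟨fun v j => ω ⟨v, j⟩, J, ?_, fun v x hx => hJ v x hx⟩
  intro v j c
  have h1 := hω v (mem_univ v)
  rw [not_or] at h1
  have h2 := h1.1
  rw [hB1] at h2
  simp only [not_exists, not_le] at h2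
  have h3 := h2 j c
  have h4 : ((G.neighborFinset v).filter (fun u => ω ⟨u, j⟩ = c)).card ≤
      ((NS v j).filter (fun u => ω u = c)).card := by
    refine Finset.card_le_card_of_injOn (fun u => (⟨u, j⟩ : Site V M)) ?_ ?_
    · intro u hu
      have hu' := Finset.mem_filter.1 (Finset.mem_coe.1 hu)
      refine Finset.mem_coe.2 (Finset.mem_filter.2 ⟨?_, hu'.2⟩)
      rw [hNS]
      exact Finset.mem_image.2 ⟨u, hu'.1, rfl⟩
    · intro u _ u' _ h
      exact congrArg Site.v h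
  exact h4.trans (Nat.lt_succ_iff.1 h3)

end Pool.Agent.Helper311.Blow
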