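import Mathlib
import Pool.Agent.Helper311.Blow.Part

set_option autoImplicit false

/-!
# Colouring graphs without a complete multipartite subgraph
-/

namespace Pool.Agent.Helper311.Blow

open Finset Filter Pool.Agent.Helper311.Glue Classical

/-- combining proper colourings of classes -/
theorem colorable_of_classes {V ι : Type} [Fintype ι] (G : SimpleGraph V) (τ : V → ι) (N : ι → ℕ)
    (h : ∀ i, ColOn G {v | τ v = i} (N i)) : G.Colorable (∑ i, N i) := by
  choose f hf1 hf2 using h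
  have hcolor : ∃ g : V → (Σ i, Fin (N i)), ∀ u v, G.Adj u v → g u ≠ g v := by
    refine ⟨fun v => ⟨τ v, ⟨f (τ v) v, hf1 (τ v) v rfl⟩⟩, ?_⟩
    intro u v huv h1
    have hτ : τ u = τ v := congrArg Sigma.fst h1
    have h2 : f (τ u) u = f (τ v) v := by
      have := congrArg (fun z : Σ i, Fin (N i) => (z.2 : ℕ)) h1
      simpa using this
    exact hf2 (τ u) u rfl v hτ.symm huv (by rw [h2, hτ])
  obtain ⟨g, hg⟩ := hcolor
  have hcard : Fintype.card (Σ i, Fin (N i)) = ∑ i, N i := by simp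
  rw [← hcard]
  exact SimpleGraph.Coloring.colorable (SimpleGraph.Coloring.mk g (fun {u v} h => hg u v h))

/-- a `(k+1)`-colourable graph embeds into a complete `(k+1)`-partite pattern -/
theorem embed_pattern {W V : Type} [Fintype W] (F : SimpleGraph W) (k t : ℕ)
    (hW : Fintype.card W ≤ t + 1) (hF : F.Colorable (k + 1)) (G : SimpleGraph V)
    (x : Fin k → Fin (t + 1) → V) (y : Fin (t + 1) → V)
    (h1 : ∀ i, Function.Injective (x i)) (h2 : Function.Injective y)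
    (h3 : ∀ i j, i ≠ j → ∀ a b, G.Adj (x i a) (x j b)) (h4 : ∀ i a b, G.Adj (y b) (x i a)) :
    F.IsContained G := by
  obtain ⟨col⟩ := hF
  obtain ⟨e⟩ : Nonempty (W ↪ Fin (t + 1)) := by
    rw [Function.Embedding.nonempty_iff_card_le, Fintype.card_fin]; exact hW
  set X : Fin (k + 1) → Fin (t + 1) → V := Fin.cons y x with hX
  have hX0 : X 0 = y := rfl
  have hXs : ∀ i, X (Fin.succ i) = x i := fun i => rfl
  have hadj : ∀ i j, i ≠ j → ∀ a b, G.Adj (X i a) (X j b) := by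
    intro i j
    refine Fin.cases ?_ (fun i => ?_) i
    · refine Fin.cases ?_ (fun j => ?_) j
      · intro h; exact absurd rfl h
      · intro _ a b; rw [hX0, hXs]; exact h4 j b a
    · refine Fin.cases ?_ (fun j => ?_) j
      · intro _ a b; rw [hX0, hXs]; exact (h4 i a b).symm
      · intro h a b; rw [hXs, hXs]; exact h3 i j (fun hij => h (by rw [hij])) a b
  have hinj : ∀ i, Function.Injective (X i) := by
    intro i
    refine Fin.cases ?_ (fun i => ?_) i
    · rw [hX0]; exact h2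
    · rw [hXs]; exact h1 i
  refine ⟨⟨⟨fun w => X (col w) (e w), fun {w w'} h => hadj _ _ (col.valid h) _ _⟩, ?_⟩⟩
  intro w w' h
  have h' : X (col w) (e w) = X (col w') (e w') := h
  by_cases hc : col w = col w'
  · rw [hc] at h'
    exact e.injective (hinj _ h')
  · have := hadj _ _ hc (e w) (e w')
    rw [h'] at this
    exact absurd rfl this.ne

/-- finite graphs without `F`: partition into few classes without `K_{k+1}` -/
theorem classes {W : Type} [Fintype W] (F : SimpleGraph W) (k t : ℕ) (hk : 2 ≤ k)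
    (hW : Fintype.card W ≤ t + 1) (hF : F.Colorable (k + 1))
    {V : Type} [Fintype V] (G : SimpleGraph V) (hfree : F.Free G)
    (D K M : ℕ) (hD : 0 < D) (hK : 1 ≤ K) (hdeg : ∀ v, G.degree v ≤ D) (θ : ℝ) (hθ : 0 ≤ θ)
    (hbig : (k * (t + 1) ^ 2 + (t + 1) : ℝ) < θ ^ ((t + 1) ^ k) * D)
    (h4 : 4 * (M * (K * Real.exp (-((1 : ℝ) ^ 2 * D / (3 * K)))) +
      (θ * (D : ℝ) ^ k / (K : ℝ) ^ k) ^ M) * ((D + 1) ^ 2 : ℕ) ≤ 1) :
    ∃ τ : V → Fin M × Fin K,
      (∀ v i (P : Set V), P = {u | τ u = i} →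
        (((G.neighborFinset v).filter (fun u => u ∈ P)).card : ℝ) ≤ 2 * D / K) ∧
      ∀ i, ∀ T : Set V, T ⊆ {u | τ u = i} → ¬ Cp (⊤ : SimpleGraph (Fin (k + 1))) G T := by
  obtain ⟨Z, hZ1, hZ2⟩ := elim_order
    (fun v Y => ∑ x, ind (isCT G k v Y x) < θ * (D : ℝ) ^ k) _ (univ : Finset V) rfl (by
      intro Y _ hY
      by_contra hcon
      push Not at hcon
      obtain ⟨x, y, g1, g2, g3, g4⟩ := rich_pattern G k t D hk hD hdeg Y hY θ hθ hcon hbig
      exact hfree (embed_pattern F k t hW hF G x y g1 g2 g3 g4))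
  set 𝒯 : V → Finset (Fin k → V) := fun v => univ.filter (isCT G k v (Z v)) with h𝒯
  have hmemT : ∀ v x, x ∈ 𝒯 v ↔ isCT G k v (Z v) x := by
    intro v x
    rw [h𝒯]
    exact ⟨fun h => (Finset.mem_filter.1 h).2, fun h => Finset.mem_filter.2 ⟨Finset.mem_univ _, h⟩⟩
  obtain ⟨ω, J, hω1, hω2⟩ := partitions G K M k D hK hdeg 𝒯 (by
      intro v x hx
      obtain ⟨h1, h2⟩ := (hmemT v x).1 hx
      refine ⟨?_, fun i => (h1 i).2⟩
      intro i j hij
      by_contra hne
      exact (h2 i j hne).ne hij) (θ * (D : ℝ) ^ k) (by positivity) (by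
      intro v
      have := hZ1 v (Finset.mem_univ v)
      rw [h𝒯]
      simp only
      rw [card_eq_sum]
      exact this.le) h4
  refine ⟨fun v => (J v, ω v (J v)), ?_, ?_⟩
  · rintro v ⟨j, c⟩ P hP
    have h5 := filt_le (G.neighborFinset v) P (fun u => ω u j = c)
      (by
        intro u _ hu'
        have hu : (J u, ω u (J u)) = (j, c) := by rw [hP] at hu'; exact hu'
        have h6 : J u = j := congrArg Prod.fst hu
        have h7 : ω u (J u) = c := congrArg Prod.snd hu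
        rw [← h6]; exact h7)
    have h8 : ((⌊(1 + 1) * (D : ℝ) / K⌋₊ : ℕ) : ℝ) ≤ 2 * D / K := by
      refine (Nat.floor_le (by positivity)).trans (le_of_eq ?_)
      norm_num
    exact (Nat.cast_le (α := ℝ).2 (h5.trans (hω1 v j c))).trans h8
  · rintro ⟨j, c⟩ T hT ⟨φ, hφ, hφT⟩
    have hmem : ∀ a, φ a ∈ T := fun a => by rw [← hφT]; exact ⟨a, rfl⟩
    have hcls : ∀ a, J (φ a) = j ∧ ω (φ a) j = c := by
      intro a
      have h5 := hT (hmem a)
      have h6 : J (φ a) = j := congrArg Prod.fst h5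
      have h7 : ω (φ a) (J (φ a)) = c := congrArg Prod.snd h5
      exact ⟨h6, by rw [h6] at h7; exact h7⟩
    obtain ⟨v, hv, hvZ⟩ := hZ2 (univ.image φ) (Finset.subset_univ _)
      ⟨φ 0, Finset.mem_image.2 ⟨0, Finset.mem_univ _, rfl⟩⟩
    obtain ⟨a0, -, rfl⟩ := Finset.mem_image.1 hv
    have hadj : ∀ a b, a ≠ b → G.Adj (φ a) (φ b) := fun a b hab =>
      hφ.2 a b ((SimpleGraph.top_adj a b).2 hab)
    refine hω2 (φ a0) (fun i => φ (a0.succAbove i)) ((hmemT _ _).2 ⟨fun i => ⟨?_, ?_⟩, ?_⟩) ?_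
    · exact hvZ (Finset.mem_image.2 ⟨_, Finset.mem_univ _, rfl⟩)
    · exact hadj _ _ (Fin.succAbove_ne a0 i).symm
    · intro i i' hii'
      exact hadj _ _ (fun h => hii' (Fin.succAbove_right_injective h))
    · intro i
      rw [(hcls a0).1, (hcls _).2, (hcls a0).2]

/-- **Blow-ups.** If `c(K_{k+1})` is finite, then so is `c(F)` for every `(k+1)`-colourable `F`. -/
theorem blowup {W : Type} [Fintype W] (F : SimpleGraph W) (k : ℕ) (hk : 2 ≤ k)
    (hF : F.Colorable (k + 1)) (c : ℝ) (hc : 0 ≤ c)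
    (hK : UpTo (⊤ : SimpleGraph (Fin (k + 1))) c) :
    UpTo F ((128 * k * ((Fintype.card W : ℝ) + 1) ^ (2 * k)) * c) := by
  set t : ℕ := Fintype.card W with ht
  set E : ℕ := (t + 1) ^ k with hE
  have hE1 : 1 ≤ E := Nat.one_le_pow _ _ (by omega)
  set L : ℕ := 4 * k * E with hL
  set M : ℕ := 16 * E with hM
  have hL1 : 1 ≤ L := by rw [hL]; nlinarith
  have hM1 : 1 ≤ M := by rw [hM]; omega
  set C : ℝ := 2 * M * L with hC
  have hC0 : 0 < C := by rw [hC]; positivity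
  have hCe : 128 * k * ((Fintype.card W : ℝ) + 1) ^ (2 * k) = C := by
    rw [hC, hM, hL, hE, ht]; push_cast
    rw [two_mul k, pow_add]; ring
  rw [hCe]
  intro ε hε
  have hGB := hK.gb hc
  obtain ⟨y₀, hy₀⟩ := hGB (ε / C) (by positivity)
  -- large `s`, where `D = s ^ L`
  have T1 : Tendsto (fun D : ℕ => (D : ℝ) ^ ((L : ℝ)⁻¹)) atTop atTop :=
    (tendsto_rpow_atTop (by positivity)).comp tendsto_natCast_atTop_atTop
  have E1 : ∀ᶠ s : ℝ in atTop, Real.exp (-(1 / 6 * s)) * (s + 1) ^ (3 * L) ≤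
      1 / (16 * M) := asy_exp (by norm_num) (by positivity) _
  have E2 : ∀ᶠ s : ℝ in atTop, (k * (t + 1) ^ 2 + (t + 1) : ℝ) < s := eventually_gt_atTop _
  have E3 : ∀ᶠ s : ℝ in atTop, y₀ ≤ s := eventually_ge_atTop _
  have E4 : ∀ᶠ s : ℝ in atTop, (8 : ℝ) ≤ s := eventually_ge_atTop _
  obtain ⟨D₀, hD₀⟩ := eventually_atTop.1
    (T1.eventually (((E1.and E2).and E3).and E4))
  refine ⟨max D₀ 1, ?_⟩
  intro D hD V _ G inst hfree hmax
  have hinst : inst = fun a b => Classical.propDecidable (G.Adj a b) := Subsingleton.elim _ _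
  subst hinst
  obtain ⟨⟨⟨e1, e2⟩, e3⟩, e4⟩ := hD₀ D ((le_max_left _ _).trans hD)
  have hD1 : 1 ≤ D := (le_max_right _ _).trans hD
  have hDr : (0 : ℝ) < D := by exact_mod_cast hD1
  set s : ℝ := (D : ℝ) ^ ((L : ℝ)⁻¹) with hs
  have hsL : s ^ L = D := Real.rpow_inv_natCast_pow hDr.le (by omega)
  have hs1 : 1 ≤ s := by linarith
  have hs0 : 0 < s := by linarith
  have hsD : s ≤ D := by
    rw [← hsL]; exact le_self_pow₀ hs1 (by omega)
  set K : ℕ := ⌈(D : ℝ) / s⌉₊ with hKdef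
  have hK1 : 1 ≤ K := by
    rw [hKdef]
    exact Nat.ceil_pos.2 (div_pos hDr hs0)
  have hKr : (0 : ℝ) < K := by exact_mod_cast hK1
  have hKlow : (D : ℝ) / s ≤ K := Nat.le_ceil _
  have hKup : (K : ℝ) ≤ 2 * D / s := by
    have h1 : (K : ℝ) < (D : ℝ) / s + 1 := Nat.ceil_lt_add_one (by positivity)
    have h2 : 1 ≤ (D : ℝ) / s := by rw [le_div_iff₀ hs0]; linarith
    have h3 : 2 * (D : ℝ) / s = (D : ℝ) / s + (D : ℝ) / s := by ring
    linarith
  have hKD : (K : ℝ) ≤ D := by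
    refine hKup.trans ?_
    rw [div_le_iff₀ hs0]
    nlinarith
  set θ : ℝ := 1 / s ^ (2 * k) with hθ
  have hθ0 : 0 < θ := by rw [hθ]; positivity
  have hdeg : ∀ v, G.degree v ≤ D := fun v => by
    rw [← hmax]; exact G.degree_le_maxDegree v
  have hbig : (k * (t + 1) ^ 2 + (t + 1) : ℝ) < θ ^ ((t + 1) ^ k) * D := by
    refine lt_of_lt_of_le e2 ?_
    have h1 : θ ^ ((t + 1) ^ k) * D = s ^ (2 * k * E) := by
      rw [← hE, hθ, ← hsL, div_pow, one_pow, ← pow_mul]
      have h2 : L = 2 * k * E + 2 * k * E := by rw [hL]; ring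
      rw [h2, pow_add]
      field_simp
    rw [h1]
    refine le_self_pow₀ hs1 ?_
    have : 0 < 2 * k * E := by positivity
    omega
  have h4 : 4 * (M * (K * Real.exp (-((1 : ℝ) ^ 2 * D / (3 * K)))) +
      (θ * (D : ℝ) ^ k / (K : ℝ) ^ k) ^ M) * ((D + 1) ^ 2 : ℕ) ≤ 1 := by
    push_cast
    have hD2 : ((D : ℝ) + 1) ≤ (s + 1) ^ L := by
      rw [← hsL]
      obtain ⟨L', hL'⟩ : ∃ L', L = L' + 1 := ⟨L - 1, by omega⟩
      rw [hL', pow_succ, pow_succ]
      have h1 : s ^ L' ≤ (s + 1) ^ L' := pow_le_pow_left₀ hs0.le (by linarith) _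
      have h2 : 1 ≤ (s + 1) ^ L' := one_le_pow₀ (by linarith)
      nlinarith [mul_le_mul_of_nonneg_right h1 hs0.le]
    have p1 : M * (K * Real.exp (-((1 : ℝ) ^ 2 * D / (3 * K)))) * ((D : ℝ) + 1) ^ 2 ≤ 1 / 16 := by
      have h1 : Real.exp (-((1 : ℝ) ^ 2 * D / (3 * K))) ≤ Real.exp (-(1 / 6 * s)) := by
        apply Real.exp_le_exp.2
        have h2 : 1 / 6 * s ≤ (1 : ℝ) ^ 2 * D / (3 * K) := by
          rw [le_div_iff₀ (by positivity)]
          have h3 : (K : ℝ) * s ≤ 2 * D := by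
            rwa [le_div_iff₀ hs0] at hKup
          nlinarith
        linarith
      have h5 : (K : ℝ) * ((D : ℝ) + 1) ^ 2 ≤ (s + 1) ^ (3 * L) := by
        have h6 : (K : ℝ) ≤ (s + 1) ^ L := by linarith
        calc (K : ℝ) * ((D : ℝ) + 1) ^ 2 ≤ (s + 1) ^ L * ((s + 1) ^ L) ^ 2 := by
              refine mul_le_mul h6 (pow_le_pow_left₀ (by positivity) hD2 2) (by positivity)
                (by positivity)
          _ = (s + 1) ^ (3 * L) := by rw [← pow_mul, ← pow_add]; congr 1; ring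
      calc M * (K * Real.exp (-((1 : ℝ) ^ 2 * D / (3 * K)))) * ((D : ℝ) + 1) ^ 2
          = M * (Real.exp (-((1 : ℝ) ^ 2 * D / (3 * K))) * (K * ((D : ℝ) + 1) ^ 2)) := by ring
        _ ≤ M * (Real.exp (-(1 / 6 * s)) * (s + 1) ^ (3 * L)) := by
            refine mul_le_mul_of_nonneg_left ?_ (by positivity)
            exact mul_le_mul h1 h5 (by positivity) (by positivity)
        _ ≤ M * (1 / (16 * M)) := mul_le_mul_of_nonneg_left e1 (by positivity)
        _ = 1 / 16 := by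
            have : (M : ℝ) ≠ 0 := by positivity
            field_simp
    have p2 : (θ * (D : ℝ) ^ k / (K : ℝ) ^ k) ^ M * ((D : ℝ) + 1) ^ 2 ≤ 1 / 16 := by
      have h1 : θ * (D : ℝ) ^ k / (K : ℝ) ^ k ≤ 1 / s ^ k := by
        rw [div_le_iff₀ (by positivity)]
        have h2 : ((D : ℝ) / s) ^ k ≤ (K : ℝ) ^ k := pow_le_pow_left₀ (by positivity) hKlow k
        calc θ * (D : ℝ) ^ k = 1 / s ^ k * ((D : ℝ) / s) ^ k := by
              rw [hθ, div_pow, two_mul, pow_add]; field_simp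
          _ ≤ 1 / s ^ k * (K : ℝ) ^ k := mul_le_mul_of_nonneg_left h2 (by positivity)
      have h3 : (θ * (D : ℝ) ^ k / (K : ℝ) ^ k) ^ M ≤ 1 / (D : ℝ) ^ 4 := by
        calc (θ * (D : ℝ) ^ k / (K : ℝ) ^ k) ^ M ≤ (1 / s ^ k) ^ M :=
              pow_le_pow_left₀ (by positivity) h1 M
          _ = 1 / (D : ℝ) ^ 4 := by
              rw [← hsL, div_pow, one_pow, ← pow_mul, ← pow_mul]
              congr 2
              rw [hM, hL]; ring
      have hD8 : (8 : ℝ) ≤ D := by linarith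
      have h5 : ((D : ℝ) + 1) ^ 2 ≤ 4 * (D : ℝ) ^ 2 := by nlinarith
      calc (θ * (D : ℝ) ^ k / (K : ℝ) ^ k) ^ M * ((D : ℝ) + 1) ^ 2
          ≤ 1 / (D : ℝ) ^ 4 * (4 * (D : ℝ) ^ 2) :=
            mul_le_mul h3 h5 (by positivity) (by positivity)
        _ = 4 / (D : ℝ) ^ 2 := by field_simp
        _ ≤ 1 / 16 := by
            rw [div_le_div_iff₀ (by positivity) (by norm_num)]
            nlinarith
    calc 4 * (M * (K * Real.exp (-((1 : ℝ) ^ 2 * D / (3 * K)))) +
        (θ * (D : ℝ) ^ k / (K : ℝ) ^ k) ^ M) * ((D : ℝ) + 1) ^ 2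
        = 4 * (M * (K * Real.exp (-((1 : ℝ) ^ 2 * D / (3 * K)))) * ((D : ℝ) + 1) ^ 2 +
          (θ * (D : ℝ) ^ k / (K : ℝ) ^ k) ^ M * ((D : ℝ) + 1) ^ 2) := by ring
      _ ≤ 1 := by linarith
  obtain ⟨τ, hτ1, hτ2⟩ := classes F k t hk (by omega) hF G hfree D K M (by omega) hK1 hdeg θ
    hθ0.le hbig h4
  set y : ℝ := 2 * D / K with hy
  have hys : s ≤ y := by
    rw [hy, le_div_iff₀ hKr]
    have h3 : (K : ℝ) * s ≤ 2 * D := by rwa [le_div_iff₀ hs0] at hKup
    linarith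
  have hcol : ∀ i : Fin M × Fin K, ∃ n : ℕ, (n : ℝ) ≤ (c + ε / C) * (y / Real.log y) ∧
      ColOn G {v | τ v = i} n := by
    intro i
    exact hy₀ y (e3.trans hys) V G {v | τ v = i} (hτ2 i) (fun v _ => hτ1 v i _ rfl)
  choose N hN1 hN2 using hcol
  refine ⟨∑ i, N i, colorable_of_classes G τ N hN2, ?_⟩
  push_cast
  have hlogs : 0 < Real.log s := Real.log_pos (by linarith)
  have hlogD : Real.log D = L * Real.log s := by rw [← hsL, Real.log_pow]
  have hlogy : Real.log s ≤ Real.log y := Real.log_le_log hs0 hys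
  have hcε : 0 ≤ c + ε / C := by positivity
  calc ∑ i : Fin M × Fin K, (N i : ℝ) ≤ ∑ _i : Fin M × Fin K, (c + ε / C) * (y / Real.log y) :=
        Finset.sum_le_sum (fun i _ => hN1 i)
    _ = (M * K) * ((c + ε / C) * (y / Real.log y)) := by
        rw [Finset.sum_const, Finset.card_univ, Fintype.card_prod, Fintype.card_fin,
          Fintype.card_fin, nsmul_eq_mul]
        push_cast; ring
    _ ≤ (M * K) * ((c + ε / C) * (y / Real.log s)) := by
        refine mul_le_mul_of_nonneg_left ?_ (by positivity)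
        refine mul_le_mul_of_nonneg_left ?_ hcε
        exact div_le_div_of_nonneg_left (by positivity) hlogs hlogy
    _ = (C * c + ε) * ((D : ℝ) / Real.log D) := by
        rw [hlogD, hy, hC]
        have h1 : (K : ℝ) ≠ 0 := hKr.ne'
        have h2 : (L : ℝ) ≠ 0 := by positivity
        have h3 : (M : ℝ) ≠ 0 := by positivity
        field_simp

end Pool.Agent.Helper311.Blow
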